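import Mathlib
import Pool.Agent.LibRigid.Asymp

/-!
Monomial automorphism groups of random linear codes of fixed rate over `F`, `|F| > 2`.
-/

namespace Pool.Agent.Results.MP_7f4d3c_lc.RigidCodes

open Module Filter Topology

section defs

variable {F : Type*} [Field F] {n : ℕ}

/-- The action of `((d_1, ..., d_n), σ)` of the monomial group on `F^n`:
`x ↦ (d_i * x_{σ⁻¹ i})_i`. -/
def act (d : Fin n → Fˣ) (σ : Equiv.Perm (Fin n)) : (Fin n → F) →ₗ[F] (Fin n → F) where
  toFun x := fun i => (d i : F) * x (σ⁻¹ i)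
  map_add' x y := by
    funext i
    simp only [Pi.add_apply, mul_add]
  map_smul' c x := by
    funext i
    simp only [Pi.smul_apply, smul_eq_mul, RingHom.id_apply]
    ring

/-- The automorphism group of the code `C`: the monomial maps `φ` with `φ(C) = C`. -/
def Aut (C : Submodule F (Fin n → F)) : Set ((Fin n → F) →ₗ[F] (Fin n → F)) :=
  {φ | (∃ (d : Fin n → Fˣ) (σ : Equiv.Perm (Fin n)), φ = act d σ) ∧ C.map φ = C}

/-- The scalar maps `c • id`, `c ≠ 0`. -/
def Scalars (F : Type*) [Field F] (n : ℕ) : Set ((Fin n → F) →ₗ[F] (Fin n → F)) :=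
  {φ | ∃ c : Fˣ, φ = (c : F) • LinearMap.id}

/-- The probability that a uniformly random `k`-dimensional subspace of `F^n` has no
automorphisms other than the scalars. -/
noncomputable def rigidProb (F : Type*) [Field F] (n k : ℕ) : ℝ :=
  (Nat.card {C : Submodule F (Fin n → F) // finrank F C = k ∧ Aut C = Scalars F n} : ℝ) /
    (Nat.card {C : Submodule F (Fin n → F) // finrank F C = k} : ℝ)

end defs

section proof

variable {F : Type*} [Field F] {n : ℕ}

lemma act_eq (d : Fin n → Fˣ) (σ : Equiv.Perm (Fin n)) : act d σ = LibRigid.monomialMap d σ := rfl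

lemma scalars_subset_aut (C : Submodule F (Fin n → F)) : Scalars F n ⊆ Aut C := by
  rintro φ ⟨c, rfl⟩
  refine ⟨⟨fun _ => c, 1, ?_⟩, ?_⟩
  · apply LinearMap.ext
    intro x
    funext i
    simp [act]
  · ext x
    simp only [Submodule.mem_map, LinearMap.smul_apply, LinearMap.id_apply]
    constructor
    · rintro ⟨y, hy, rfl⟩
      exact C.smul_mem _ hy
    · intro hx
      refine ⟨(c⁻¹ : Fˣ) • x, C.smul_mem _ hx, ?_⟩
      rw [← Units.smul_def c, smul_smul, mul_inv_cancel, one_smul]

variable [Fintype F]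

lemma bad_subset (n k : ℕ) :
    {x : Fin k → (Fin n → F) | LinearIndependent F x ∧
      ¬ (Aut (Submodule.span F (Set.range x)) = Scalars F n)} ⊆
    ⋃ p ∈ {p : (Fin n → Fˣ) × Equiv.Perm (Fin n) | LibRigid.NonScalar p},
      LibRigid.Stab (F := F) k p := by
  rintro x ⟨-, hx⟩
  have : ∃ φ, φ ∈ Aut (Submodule.span F (Set.range x)) ∧ φ ∉ Scalars F n := by
    by_contra hno
    push Not at hno
    exact hx (Set.Subset.antisymm hno (scalars_subset_aut _))
  obtain ⟨φ, ⟨⟨d, σ, rfl⟩, hmap⟩, hns⟩ := this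
  simp only [Set.mem_iUnion, Set.mem_ofPred_eq]
  refine ⟨(d, σ), ?_, ?_⟩
  · intro c hc
    exact hns ⟨c, hc⟩
  · intro i
    rw [← act_eq]
    rw [← hmap]
    exact Submodule.mem_map_of_mem (Submodule.subset_span (Set.mem_range_self i))

lemma nonrigid_bound (hF : 2 < Fintype.card F) {n k a : ℕ} (ha : 1 ≤ a) (hn : 1 ≤ n)
    (hkn : k ≤ n) (h1 : n ≤ a * k) (h2 : n ≤ a * (n - k))
    (hη : ((n * n * Fintype.card F : ℕ) : ℝ) ^ (12 * a) * n *
      (2 / 3 : ℝ) ^ (n / (48 * a)) ≤ 1) :
    |rigidProb F n k - 1| ≤ 2 * (3 * (Fintype.card F : ℝ) ^ (48 * a + 2)) *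
        ((n : ℝ) + 1) ^ (96 * a + 3) * (2 / 3 : ℝ) ^ (n / (48 * a)) := by
  classical
  set γ : ℕ := ∏ i : Fin k, (Fintype.card F ^ k - Fintype.card F ^ (i : ℕ)) with hγ
  have cAll := LibRigid.card_subspaces (F := F) (V := Fin n → F) (k := k) (fun _ => True)
  have cGood := LibRigid.card_subspaces (F := F) (V := Fin n → F) (k := k)
    (fun C => Aut C = Scalars F n)
  have cBad := LibRigid.card_subspaces (F := F) (V := Fin n → F) (k := k)
    (fun C => ¬ (Aut C = Scalars F n))
  simp only [and_true] at cAll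
  rw [← hγ] at cAll cGood cBad
  set NA := Nat.card {C : Submodule F (Fin n → F) // finrank F C = k} with hNA
  set NG := Nat.card {C : Submodule F (Fin n → F) // finrank F C = k ∧ Aut C = Scalars F n} with hNG
  set NB := Nat.card {C : Submodule F (Fin n → F) // finrank F C = k ∧
    ¬ (Aut C = Scalars F n)} with hNB
  have hsplit : NA = NG + NB := by
    have : Finite (Submodule F (Fin n → F)) := LibRigid.finite_submodule (F := F)
    have : Fintype (Submodule F (Fin n → F)) := Fintype.ofFinite _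
    rw [hNA, hNG, hNB]
    simp only [Nat.card_eq_fintype_card, Fintype.card_subtype]
    rw [← Finset.card_union_of_disjoint]
    · congr 1
      ext C
      simp only [Finset.mem_filter, Finset.mem_univ, true_and, Finset.mem_union]
      tauto
    · rw [Finset.disjoint_left]
      intro C hC hC'
      simp only [Finset.mem_filter, Finset.mem_univ, true_and] at hC hC'
      exact hC'.2 hC.2
  have hLI := LibRigid.li_lower (F := F) hF hkn
  have hU := LibRigid.union_estimate (F := F) hF ha hn hkn h1 h2 hη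
  have hq0 : (0 : ℝ) < Fintype.card F := by
    have : 0 < Fintype.card F := Fintype.card_pos
    exact_mod_cast this
  set T : ℝ := ((Fintype.card F : ℝ) ^ n) ^ k with hT
  have hT0 : 0 < T := by positivity
  set ε : ℝ := 3 * (Fintype.card F : ℝ) ^ (48 * a + 2) *
        ((n : ℝ) + 1) ^ (96 * a + 3) * (2 / 3 : ℝ) ^ (n / (48 * a)) with hε
  have hbad : ((NB * γ : ℕ) : ℝ) ≤ T * ε := by
    rw [cBad]
    refine le_trans ?_ hU
    exact_mod_cast Set.ncard_le_ncard (bad_subset n k) (Set.toFinite _)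
  have hall : T / 2 ≤ ((NA * γ : ℕ) : ℝ) := by
    rw [cAll]; exact hLI
  have hpos : (0 : ℝ) < ((NA * γ : ℕ) : ℝ) := by linarith
  have hNApos : (0 : ℝ) < NA := by
    rcases Nat.eq_zero_or_pos NA with h | h
    · rw [h, zero_mul] at hpos; simp at hpos
    · exact_mod_cast h
  have hγpos : (0 : ℝ) < γ := by
    rcases Nat.eq_zero_or_pos γ with h | h
    · rw [h, mul_zero] at hpos; simp at hpos
    · exact_mod_cast h
  have e1 : rigidProb F n k - 1 = - (NB / NA : ℝ) := by
    unfold rigidProb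
    rw [← hNA, ← hNG]
    have : (NG : ℝ) = NA - NB := by
      rw [hsplit]; push_cast; ring
    rw [this]
    field_simp
    ring
  rw [e1, abs_neg, abs_of_nonneg (by positivity)]
  have e2 : (NB / NA : ℝ) = ((NB * γ : ℕ) : ℝ) / ((NA * γ : ℕ) : ℝ) := by
    push_cast
    field_simp
  rw [e2, div_le_iff₀ hpos]
  have hε0 : 0 ≤ ε := by positivity
  calc ((NB * γ : ℕ) : ℝ) ≤ T * ε := hbad
    _ = (2 * ε) * (T / 2) := by ring
    _ ≤ (2 * ε) * ((NA * γ : ℕ) : ℝ) := mul_le_mul_of_nonneg_left hall (by positivity)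
    _ = _ := by rw [hε]; ring

end proof

/-- For every finite field `F` with more than two elements and every fixed rate `R ∈ (0,1)`, a
uniformly random `[n, ⌊R n⌋]` code over `F` has only the scalar automorphisms with probability
tending to `1` as `n → ∞`. -/
theorem result (F : Type*) [Field F] [Fintype F] (hF : 2 < Fintype.card F) (R : ℝ) (hR0 : 0 < R)
    (hR1 : R < 1) :
    Tendsto (fun n : ℕ => rigidProb F n ⌊R * n⌋₊) atTop (𝓝 1) := by
  obtain ⟨a, ha⟩ : ∃ a : ℕ, 2 / R + 1 / (1 - R) + 1 ≤ a := exists_nat_ge _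
  have hR1' : 0 < 1 - R := by linarith
  have ha1 : 2 ≤ a * R := by
    have : 2 / R ≤ a := by
      have : 0 < 1 / (1 - R) := by positivity
      linarith
    rwa [div_le_iff₀ hR0] at this
  have ha2 : 1 ≤ a * (1 - R) := by
    have : 1 / (1 - R) ≤ a := by
      have : 0 < 2 / R := by positivity
      linarith
    rwa [div_le_iff₀ hR1'] at this
  have ha0 : 1 ≤ a := by
    have h1 : 0 < 1 / (1 - R) := by positivity
    have h2 : 0 < 2 / R := by positivity
    have : (1 : ℝ) ≤ a := by linarith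
    exact_mod_cast this
  have hlim := LibRigid.tendsto_poly_exp (2 * (3 * (Fintype.card F : ℝ) ^ (48 * a + 2)))
    (96 * a + 3) (48 * a) (by omega)
  have hη : ∀ᶠ n : ℕ in atTop, ((n * n * Fintype.card F : ℕ) : ℝ) ^ (12 * a) * n *
      (2 / 3 : ℝ) ^ (n / (48 * a)) ≤ 1 := by
    have h1 := LibRigid.tendsto_poly_exp ((Fintype.card F : ℝ) ^ (12 * a))
      (24 * a + 1) (48 * a) (by omega)
    have h2 := h1.eventually (ge_mem_nhds (zero_lt_one))
    filter_upwards [h2] with n hn
    refine le_trans ?_ hn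
    apply mul_le_mul_of_nonneg_right _ (by positivity)
    push_cast
    have e : ((n : ℝ) * n * Fintype.card F) ^ (12 * a) * n =
        (Fintype.card F : ℝ) ^ (12 * a) * (n : ℝ) ^ (24 * a + 1) := by
      rw [mul_pow, ← sq, ← pow_mul]
      have : 2 * (12 * a) = 24 * a := by ring
      rw [this, pow_succ]
      ring
    rw [e]
    apply mul_le_mul_of_nonneg_left _ (by positivity)
    apply pow_le_pow_left₀ (by positivity)
    linarith
  rw [tendsto_iff_dist_tendsto_zero]
  apply squeeze_zero' (Eventually.of_forall fun n => dist_nonneg) _ hlim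
  filter_upwards [hη, eventually_ge_atTop a, eventually_ge_atTop 1] with n hn hna hn1
  rw [Real.dist_eq]
  have hnR : (a : ℝ) ≤ n := by exact_mod_cast hna
  have hn0 : (0 : ℝ) < n := by
    have : (1 : ℝ) ≤ n := by exact_mod_cast hn1
    linarith
  have hRn : 0 ≤ R * n := by positivity
  have hk1 : (⌊R * n⌋₊ : ℝ) ≤ R * n := Nat.floor_le hRn
  have hk2 : R * n < ⌊R * n⌋₊ + 1 := Nat.lt_floor_add_one _
  have hkn : ⌊R * n⌋₊ ≤ n := by
    have : (⌊R * n⌋₊ : ℝ) ≤ n := by nlinarith
    exact_mod_cast this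
  apply nonrigid_bound hF ha0 hn1 hkn _ _ hn
  · have : (n : ℝ) ≤ a * ⌊R * n⌋₊ := by
      have h1 : (a : ℝ) * (R * n) ≤ a * (⌊R * n⌋₊ + 1) := by
        apply mul_le_mul_of_nonneg_left hk2.le (by positivity)
      nlinarith
    exact_mod_cast this
  · have : (n : ℝ) ≤ a * ((n - ⌊R * n⌋₊ : ℕ) : ℝ) := by
      rw [Nat.cast_sub hkn]
      have h1 : (a : ℝ) * ((1 - R) * n) ≤ a * (n - ⌊R * n⌋₊) := by
        apply mul_le_mul_of_nonneg_left _ (by positivity)
        linarith
      nlinarith
    exact_mod_cast this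

end Pool.Agent.Results.MP_7f4d3c_lc.RigidCodes
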